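import Pool.Agent.Y534.AG.Gen

/-!
# Relations between isomorphism and equality of the ages

The starting result of this folder gives a `Σ¹₁` equivalence relation on the natural numbers that is
not computably equivalent to bi-embeddability on any class of structures. We show that there is such
a relation which is `Δ⁰₂` and has only two classes, and which moreover is not computably equivalent
to *any* equivalence relation of structures which is coarser than isomorphism and finer than
equality of the ages: isomorphism, bi-embeddability, equality of the ages, and everything in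
between.
-/

set_option autoImplicit false

namespace Pool.Agent.Results.MP_18fff8_lc.IsoToSameAge

open Pool.Agent.Results.MP_18fff8_lc.NoBiEmbClass (Lang Str IsIso BiEmb IndexSet IdxBiEmb CReduces
  IsSigma11 AgeLe SetA)
open Pool.Agent.Y534.AG (IdxRel)

/-- There is a set `S` of natural numbers, not empty and not everything, which is `Δ⁰₂` (the limit
of a computable sequence), such that the equivalence relation `x ∈ S ↔ y ∈ S` (which has two
classes and is `Σ¹₁`) is not computably equivalent to any of the following relations on the indices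
of the computable members of `K`, for any computable relational language `L` and any class `K` of
`L`-structures closed under isomorphism: any equivalence relation `R` of structures such that
isomorphic structures are `R`-equivalent and `R`-equivalent structures have the same age; in
particular bi-embeddability; isomorphism. -/
theorem result :
    ∃ S : ℕ → Prop, (∃ x, S x) ∧ (∃ x, ¬ S x) ∧
      (∃ g : ℕ → ℕ → Bool, Computable₂ g ∧ ∀ x, ∃ m, ∀ s, m ≤ s → (g x s = true ↔ S x)) ∧
      IsSigma11 (fun x y => (S x ↔ S y)) ∧
      ∀ (L : Lang) (K : Str → Prop), (∀ A B h, K A → IsIso L A B h → K B) →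
        (∀ R : Str → Str → Prop, Equivalence R → (∀ A B h, IsIso L A B h → R A B) →
          (∀ A B, R A B → AgeLe L A B ∧ AgeLe L B A) →
          ¬ (CReduces Set.univ (fun x y => (S x ↔ S y)) (IndexSet L K) (IdxRel L R) ∧
            CReduces (IndexSet L K) (IdxRel L R) Set.univ (fun x y => (S x ↔ S y)))) ∧
        ¬ (CReduces Set.univ (fun x y => (S x ↔ S y)) (IndexSet L K) (IdxBiEmb L) ∧
          CReduces (IndexSet L K) (IdxBiEmb L) Set.univ (fun x y => (S x ↔ S y))) ∧
        ¬ (CReduces Set.univ (fun x y => (S x ↔ S y)) (IndexSet L K)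
              (IdxRel L fun A B => ∃ h, IsIso L A B h) ∧
          CReduces (IndexSet L K) (IdxRel L fun A B => ∃ h, IsIso L A B h) Set.univ
            (fun x y => (S x ↔ S y))) := by
  refine ⟨SetA, ?_, ?_, ⟨NoBiEmbClass.appr, NoBiEmbClass.appr_comp Computable.fst Computable.snd,
    NoBiEmbClass.appr_lim⟩, NoBiEmbClass.Rel_sigma11, fun L K hK => ⟨fun R h1 h2 h3 =>
    Y534.AG.main L K hK R h1 h2 h3, ?_, ?_⟩⟩
  · by_cases h : NoBiEmbClass.Hal 0
    · exact ⟨Nat.pair 0 0, (NoBiEmbClass.SetA_zero 0).2 h⟩
    · exact ⟨Nat.pair 1 0, (NoBiEmbClass.SetA_one 0).2 h⟩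
  · by_cases h : NoBiEmbClass.Hal 0
    · exact ⟨Nat.pair 1 0, fun h' => (NoBiEmbClass.SetA_one 0).1 h' h⟩
    · exact ⟨Nat.pair 0 0, fun h' => h ((NoBiEmbClass.SetA_zero 0).1 h')⟩
  · exact Y534.AG.main L K hK (BiEmb L) (Y534.AG.biemb_equiv L)
      (fun A B h hh => NoBiEmbClass.biemb_of_iso L hh)
      (fun A B h => ⟨NoBiEmbClass.ageLe_of_emb h.1.choose_spec,
        NoBiEmbClass.ageLe_of_emb h.2.choose_spec⟩)
  · exact Y534.AG.main L K hK (fun A B => ∃ h, IsIso L A B h) (Y534.AG.iso_equiv L)
      (fun A B h hh => ⟨h, hh⟩) (fun A B ⟨h, hh⟩ => by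
        obtain ⟨k, hk⟩ := NoBiEmbClass.iso_symm L hh
        exact ⟨NoBiEmbClass.ageLe_of_emb hh.1, NoBiEmbClass.ageLe_of_emb hk.1⟩)

end Pool.Agent.Results.MP_18fff8_lc.IsoToSameAge
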